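import Pool.Agent.Helper57.SJ.Stmts2

/-! Row SK of the sheet `Helper57/SJ/Stmts2.lean`. -/

set_option autoImplicit false

namespace Pool.Agent.Helper89.SJ

open MeasureTheory Set Filter Topology
open Pool.Agent.Helper57.QZ (Pr tor circ aa Zy Wy Sy Vy Ky pt lin Good zA Pz)
open Pool.Agent.Helper57.SI (wsup)
open Pool.Agent.Helper57.SJ

theorem sk89_sup {u H a b : ℝ} {f : ℝ → ℝ} (hH : 0 ≤ H) (hub : ∀ t ∈ Icc u (u + H), f t ≤ b)
    (hlb : ∃ t ∈ Icc u (u + H), a ≤ f t) : a ≤ wsup u H f ∧ wsup u H f ≤ b := by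
  obtain ⟨t, ht, hat⟩ := hlb
  have hbd : BddAbove (f '' Icc u (u + H)) := by
    refine ⟨b, ?_⟩
    rintro _ ⟨s, hs, rfl⟩
    exact hub s hs
  constructor
  · exact hat.trans (le_csSup hbd ⟨t, ht, rfl⟩)
  · refine csSup_le ⟨f t, ⟨t, ht, rfl⟩⟩ ?_
    rintro _ ⟨s, hs, rfl⟩
    exact hub s hs

theorem sk89_alg {d A L a b m : ℝ} (hd0 : 0 < d) (hd1 : d ≤ 1 / 20) (hA : 0 < A) (hL : 0 < L)
    (ha1 : (1 - d) * A ≤ a) (ha2 : a ≤ (1 + d) * A)
    (hb1 : (1 - d) * A * ((1 - d) * L) ≤ b) (hb2 : b ≤ (1 + d) * A * ((1 + d) * L))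
    (hm1 : (1 - d) * L ≤ m) (hm2 : m ≤ (1 + d) * L) :
    (1 - 10 * d) * (b / a) ≤ m ∧ m ≤ (1 + 10 * d) * (b / a) ∧ |m - L| ≤ 10 * d * L := by
  have ha : 0 < a := lt_of_lt_of_le (by nlinarith) ha1
  have hq1 : (1 - 4 * d) * L ≤ b / a := by
    rw [le_div_iff₀ ha]
    have h1 : (1 - 4 * d) * L * a ≤ (1 - 4 * d) * L * ((1 + d) * A) :=
      mul_le_mul_of_nonneg_left ha2 (mul_nonneg (by linarith) hL.le)
    have h2 : (1 - 4 * d) * L * ((1 + d) * A) ≤ (1 - d) * A * ((1 - d) * L) := by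
      have : 0 < A * L := mul_pos hA hL
      nlinarith
    linarith
  have hq2 : b / a ≤ (1 + 4 * d) * L := by
    rw [div_le_iff₀ ha]
    have h1 : (1 + 4 * d) * L * ((1 - d) * A) ≤ (1 + 4 * d) * L * a :=
      mul_le_mul_of_nonneg_left ha1 (mul_nonneg (by linarith) hL.le)
    have h2 : (1 + d) * A * ((1 + d) * L) ≤ (1 + 4 * d) * L * ((1 - d) * A) := by
      have : 0 < A * L := mul_pos hA hL
      nlinarith
    linarith
  refine ⟨?_, ?_, ?_⟩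
  · calc (1 - 10 * d) * (b / a) ≤ (1 - 10 * d) * ((1 + 4 * d) * L) :=
        mul_le_mul_of_nonneg_left hq2 (by linarith)
      _ ≤ (1 - d) * L := by nlinarith
      _ ≤ m := hm1
  · calc m ≤ (1 + d) * L := hm2
      _ ≤ (1 + 10 * d) * ((1 - 4 * d) * L) := by nlinarith
      _ ≤ (1 + 10 * d) * (b / a) := mul_le_mul_of_nonneg_left hq1 (by linarith)
  · rw [abs_le]
    constructor <;> nlinarith

/-- Row SK. -/
theorem st_SK (h : ST_CMK) : ST_SK := by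
  intro δ hδ B hB
  have hd : δ / 20 ∈ Ioo (0:ℝ) 1 := ⟨by linarith [hδ.1], by linarith [hδ.2]⟩
  obtain ⟨c, hc, H₀, T₀, hH₀, hT₀, h1⟩ := h (δ / 20) hd B hB
  refine ⟨c, hc, H₀, T₀, hH₀, hT₀, fun T hT H hH hHc => ?_⟩
  obtain ⟨hL, A, hA, E, hE1, hE2, h3⟩ := h1 T hT H hH hHc
  have hH1 : 3 ≤ H := by linarith
  refine ⟨E, hE1, hE2, fun u hu hu' θ => ?_⟩
  obtain ⟨-, hall, ⟨t₁, ht₁, hz1, hw1⟩, hθ⟩ := h3 u hu hu'
  obtain ⟨t₂, ht₂, hw2⟩ := hθ θ
  have hd0 : 0 < δ / 20 := hd.1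
  have hd1 : δ / 20 ≤ 1 / 20 := by linarith [hδ.2]
  have hL0 : 0 < Real.log (Real.log H) := by linarith
  have hH0 : 0 ≤ H := by linarith
  have hder : ∀ t ∈ Icc u (u + H), ‖deriv riemannZeta (pt 1 t)‖ =
      ‖riemannZeta (pt 1 t)‖ * ‖deriv riemannZeta (pt 1 t) / riemannZeta (pt 1 t)‖ := by
    intro t ht
    rw [← norm_mul, mul_div_cancel₀ _ (hall t ht).1]
  have s1 := sk89_sup (f := fun t => ‖riemannZeta (pt 1 t)‖) hH0
    (fun t ht => (hall t ht).2.1) ⟨t₁, ht₁, hz1⟩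
  have s2 := sk89_sup (f := fun t => ‖deriv riemannZeta (pt 1 t)‖) (u := u) (H := H)
    (a := (1 - δ / 20) * A * ((1 - δ / 20) * Real.log (Real.log H)))
    (b := (1 + δ / 20) * A * ((1 + δ / 20) * Real.log (Real.log H))) hH0
    (fun t ht => by
      show ‖deriv riemannZeta (pt 1 t)‖ ≤ _
      rw [hder t ht]
      exact mul_le_mul (hall t ht).2.1 (hall t ht).2.2 (norm_nonneg _) (by positivity))
    ⟨t₁, ht₁, by
      show _ ≤ ‖deriv riemannZeta (pt 1 t₁)‖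
      rw [hder t₁ ht₁]
      exact mul_le_mul hz1 hw1 (mul_nonneg (by linarith) hL0.le) (norm_nonneg _)⟩
  have s3 := sk89_sup (f := fun t => (Complex.exp (-((θ : ℂ) * Complex.I)) *
      (deriv riemannZeta (pt 1 t) / riemannZeta (pt 1 t))).re) (u := u) (H := H)
    (a := (1 - δ / 20) * Real.log (Real.log H))
    (b := (1 + δ / 20) * Real.log (Real.log H)) hH0
    (fun t ht => by
      refine (Complex.re_le_norm _).trans ?_
      rw [norm_mul, show -((θ : ℂ) * Complex.I) = ((-θ : ℝ) : ℂ) * Complex.I by push_cast; ring,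
        Complex.norm_exp_ofReal_mul_I, one_mul]
      exact (hall t ht).2.2)
    ⟨t₂, ht₂, hw2⟩
  have h4 := sk89_alg hd0 hd1 hA hL0 s1.1 s1.2 s2.1 s2.2 s3.1 s3.2
  have hM : 0 ≤ wsup u H (fun t => ‖deriv riemannZeta (pt 1 t)‖) /
      wsup u H (fun t => ‖riemannZeta (pt 1 t)‖) := by
    refine div_nonneg (le_trans ?_ s2.1) (le_trans ?_ s1.1)
    · exact mul_nonneg (mul_nonneg (by linarith) hA.le) (mul_nonneg (by linarith) hL0.le)
    · exact mul_nonneg (by linarith) hA.le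
  refine ⟨?_, ?_, ?_⟩
  · refine le_trans (mul_le_mul_of_nonneg_right ?_ hM) h4.1
    linarith
  · refine le_trans h4.2.1 (mul_le_mul_of_nonneg_right ?_ hM)
    linarith
  · refine h4.2.2.trans (mul_le_mul_of_nonneg_right ?_ hL0.le)
    linarith

end Pool.Agent.Helper89.SJ
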